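import Mathlib
import Pool.Agent.Lib.MP_956d6c_ag.Proof

/-!
# MP_956d6c_ag: classification of rational projective flows

In every dimension `k = m + 2` the list consists of the identity, the flow `φ_0 = x / (1 + x_k)`
and, for each integer `N ≥ 1` and each field `F ⊇ ℂ` with `F(v) ≃ ℂ(t_1, …, t_{k-1})`, one
explicitly described flow; every flow is conjugate to exactly one of these, the last ones being
conjugate iff they have the same `N` and isomorphic `F`. In dimension three the list is: the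
identity and `φ_N`, `N ≥ 0`.
-/

set_option autoImplicit false

open Pool.Agent.Lib.MP_956d6c_ag

namespace Pool.Agent.Results.MP_956d6c_ag.FlowClassification

theorem result :
    -- every dimension `k = m + 2`
    (∀ m : ℕ,
      -- the maps on the list are flows
      IsProjectiveFlow (idFlow (m + 2)) ∧
      (∀ N : ℕ, IsProjectiveFlow (stdFlow m N)) ∧
      (∀ (N : ℕ) (d : RatDatum (m + 1)),
        (∃! φ, IsAttached N d.θ φ) ∧ ∀ φ, IsAttached N d.θ φ → IsProjectiveFlow φ) ∧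
      (∃ d : RatDatum (m + 1), Nonempty (d.F ≃ₐ[ℂ] RF m) ∧
        ∀ N : ℕ, IsAttached N d.θ (stdFlow m N)) ∧
      -- every flow is conjugate to one on the list
      (∀ φ : Fin (m + 2) → RF (m + 2), IsProjectiveFlow φ →
        φ = idFlow (m + 2) ∨ IsConjugate φ (stdFlow m 0) ∨
        ∃ (N : ℕ) (d : RatDatum (m + 1)) (ψ : Fin (m + 2) → RF (m + 2)),
          1 ≤ N ∧ IsAttached N d.θ ψ ∧ IsConjugate φ ψ) ∧
      -- conjugacy is an equivalence relation on flows
      (∀ φ ψ χ : Fin (m + 2) → RF (m + 2), IsProjectiveFlow φ → IsProjectiveFlow ψ →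
        IsProjectiveFlow χ → IsConjugate φ φ ∧ (IsConjugate φ ψ → IsConjugate ψ φ) ∧
          (IsConjugate φ ψ → IsConjugate ψ χ → IsConjugate φ χ)) ∧
      -- the list is irredundant
      ¬ IsConjugate (idFlow (m + 2)) (stdFlow m 0) ∧
      (∀ (N : ℕ) (d : RatDatum (m + 1)) (φ : Fin (m + 2) → RF (m + 2)), 1 ≤ N →
        IsAttached N d.θ φ →
        ¬ IsConjugate (idFlow (m + 2)) φ ∧ ¬ IsConjugate (stdFlow m 0) φ) ∧
      (∀ (N N' : ℕ) (d d' : RatDatum (m + 1)) (φ φ' : Fin (m + 2) → RF (m + 2)),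
        1 ≤ N → 1 ≤ N' → IsAttached N d.θ φ → IsAttached N' d'.θ φ' →
        (IsConjugate φ φ' ↔ N = N' ∧ Nonempty (d.F ≃ₐ[ℂ] d'.F))) ∧
      -- the identity and the `φ_N` suffice iff `F(v) ≃ ℂ(t_0, …, t_m)` implies
      -- `F ≃ ℂ(t_1, …, t_m)`
      ((∀ φ : Fin (m + 2) → RF (m + 2), IsProjectiveFlow φ →
          φ = idFlow (m + 2) ∨ ∃ N : ℕ, IsConjugate φ (stdFlow m N)) ↔
        ∀ d : RatDatum (m + 1), Nonempty (d.F ≃ₐ[ℂ] RF m))) ∧
    -- dimension three
    (∀ φ : Fin 3 → RF 3, IsProjectiveFlow φ → φ = idFlow 3 ∨ ∃! N : ℕ, IsConjugate φ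
      ![crd 0 * (1 + crd 2) ^ ((N : ℤ) - 1), crd 1 / (1 + crd 2), crd 2 / (1 + crd 2)]) := by
  refine ⟨fun m => ⟨isProjectiveFlow_id _, stdFlow_flow, ?_,
    ⟨⟨RF m, thetaStd m⟩, ⟨AlgEquiv.refl⟩, isAttached_stdFlow m⟩, ?_, ?_, ?_, ?_, ?_, ?_⟩, ?_⟩
  · intro N d
    exact ⟨existsUnique_isAttached N d.θ, fun φ h => h.isProjectiveFlow⟩
  · intro φ h
    rcases classify' h with h1 | h1 | ⟨N, F, i1, i2, θ, ψ, hN, h2, h3⟩
    · exact Or.inl h1
    · exact Or.inr (Or.inl h1)
    · exact Or.inr (Or.inr ⟨N, ⟨F, θ⟩, ψ, hN, h2, h3⟩)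
  · intro φ ψ χ h h' h''
    exact ⟨conj_refl h, conj_symm h h', conj_trans h h' h''⟩
  · exact (not_isConjugate_id (isAttached_stdFlow m 0)).1
  · intro N d φ hN h
    exact ⟨(not_isConjugate_id h).1, (not_isConjugate_zero hN (isAttached_stdFlow m 0) h).1⟩
  · intro N N' d d' φ φ' hN hN' h h'
    exact isConjugate_attached_iff hN hN' h h'
  · constructor
    · intro hex d
      exact cancel_of_explicit hex d.F d.θ
    · intro hcan φ h
      exact explicit_of_cancel (fun F _ _ ⟨θ⟩ => hcan ⟨F, θ⟩) h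
  · intro φ h
    rcases dim_three h with h1 | h1
    · exact Or.inl h1
    · right
      simp only [stdFlow_three] at h1
      exact h1

end Pool.Agent.Results.MP_956d6c_ag.FlowClassification
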